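import Pool.Agent.P8H39.TI.Stm6

set_option autoImplicit false

/-!
# Project TI, sixth part, package FIN6 (helper61)
-/

namespace Pool.Agent.P8H61.TI

open Pool.Agent.P8H39.TI

theorem t_FIN6 (hF5 : S_FIN5) (hB : S_BGP) : S_FIN6 := by
  refine ⟨?_, hF5.2⟩
  intro n k t r p F T ht hk hr hrk hn hF hT hp hc
  rcases hc with h | h | h | h | h
  · exact hF5.1 n k t r p F T ht hk hr hrk hn hF hT hp (Or.inl h)
  · exact hF5.1 n k t r p F T ht hk hr hrk hn hF hT hp (Or.inr (Or.inl h))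
  · exact hF5.1 n k t r p F T ht hk hr hrk hn hF hT hp (Or.inr (Or.inr (Or.inl h)))
  · by_cases hrt : r ≤ t
    · exact hF5.1 n k t r p F T ht hk hr hrk hn hF hT hp (Or.inr (Or.inl hrt))
    · exact hB n k t r p F T ht (by omega) (by omega) hn hF hT hp h
  · exact hF5.1 n k t r p F T ht hk hr hrk hn hF hT hp (Or.inr (Or.inr (Or.inr h)))

end Pool.Agent.P8H61.TI
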